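import Mathlib
import Pool.Agent.W90.ZT.Zeta

/-!
# Divisibility of the ramification indices of the splitting fields in a `ℤ_p`-tower

For every `ℤ_p`-tower of curves `C_n` over a finite field of characteristic `p` with finite ramification
locus there is a constant `m` such that the ramification index `e_n` of the splitting field of
`P(C_n, s)` over `ℚ_p` is divisible by `p ^ (n - m)` for all large `n`. In particular `e_n → ∞`.
-/

open PowerSeries

namespace Pool.Agent.Results.MP_ddfa9a_nt.RamificationDivisible

open Pool.Agent.H707R3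

open scoped PowerSeries.WithPiTopology in
/-- The zeta function `Z(C, s) = ∏ (1 - s ^ deg x)⁻¹`, product over the closed points `x` of the curve
`C` with function field `K` over `k`. -/
noncomputable def zeta (p : ℕ) [Fact p.Prime] (k K : Type) [Field k] [Field K] [Algebra k K] :
    PowerSeries ℂ_[p] :=
  ∏' x : Place k K, (1 - X ^ x.deg)⁻¹

/-- `A` is the multiset of reciprocal roots of `P(C, s) = Z(C, s) (1 - s) (1 - q s)`, `q = #k`:
`P(C, s) = ∏ (1 - α s)`, product over `α ∈ A`. -/
def IsRecipRoots (p : ℕ) [Fact p.Prime] (k K : Type) [Field k] [Field K] [Algebra k K]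
    (A : Multiset ℂ_[p]) : Prop :=
  zeta p k K * (1 - X) * (1 - C (Nat.card k : ℂ_[p]) * X) = (A.map fun α => 1 - C α * X).prod

/-- For every `ℤ_p`-tower there are `m` and `N` such that for `n ≥ N` the zeta function of the layer
`C_n` (the intermediate field `K` with `[K : F] = p ^ n`) has reciprocal roots as above, and the
ramification index over `ℚ_p` of the field they generate is finite and divisible by `p ^ (n - m)`. -/
theorem result (p : ℕ) [Fact p.Prime] (k F E : Type) [Field k] [Finite k] [CharP k p]
    [Field F] [Algebra k F] [Field E] [Algebra F E] [Algebra k E] [IsScalarTower k F E]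
    (h : IsZpTower k F E p) :
    ∃ m N : ℕ, ∀ n, N ≤ n →
      ∀ K : IntermediateField F E, Module.finrank F K = p ^ n →
        (∃ A, IsRecipRoots p k K A) ∧
          ∀ A, IsRecipRoots p k K A →
            0 < ramIdx (IntermediateField.adjoin ℚ_[p] {α : ℂ_[p] | α ∈ A}) ∧
            p ^ (n - m) ∣ ramIdx (IntermediateField.adjoin ℚ_[p] {α : ℂ_[p] | α ∈ A}) := by
  obtain ⟨D, hD, N, hN⟩ := W90.ZT.layer_bdd h
  obtain ⟨m, hm⟩ := pow_unbounded_of_one_lt D (Fact.out : p.Prime).one_lt
  refine ⟨m + 1, max N 1, fun n hn K hK => ⟨H387R3.ZT.exists_roots h K n hK, ?_⟩⟩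
  intro A hA
  obtain ⟨h1, h2⟩ := hN n (by omega) K hK A hA
  have hint := W90.ZT.layer_integral h n K hK A hA
  have h0 := ramIdx_ne_zero A hint
  refine ⟨Nat.pos_of_ne_zero h0, ?_⟩
  obtain ⟨l, rfl⟩ : ∃ l, n = l + 1 := ⟨n - 1, by omega⟩
  have h3 := W90.ZT.pow_dvd_ramIdx (genField A) h0 h1 h2 hm
  have h4 : l + 1 - (m + 1) = l - m := by omega
  rw [h4]
  exact h3

end Pool.Agent.Results.MP_ddfa9a_nt.RamificationDivisible
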